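import Mathlib

/-!
# Spheres of FM-tetrahedra do not meet the opposite faces

Let `c` be a common point of the (additively weighted Voronoi) cells of four balls of a saturated
packing by balls of radii `1` and `r = √2 - 1`, and let `ρ` be the common value of `|c - X| - r_X`.
Saturation gives `ρ < r`, and disjointness gives `ρ ≥ 0`.  Suppose that a point `x` of the triangle
`BCD` lies in the open ball of radius `r_A` about `A` and put `h = |A - x| < r_A`.
The function `g(y) = |A - y|² - |c - y|²` is affine and at `X = B, C, D` it is at least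
`(r_A + r_X)² - (ρ + r_X)² ≥ r_A² - ρ²`, hence `g(x) ≥ r_A² - ρ²`.  On the other hand
`|c - x| ≥ |c - A| - |A - x| = r_A + ρ - h`, so
`g(x) ≤ h² - (r_A + ρ - h)² = (r_A + ρ)(2h - r_A - ρ) < (r_A + ρ)(r_A - ρ)`, a contradiction.
-/

namespace Pool.Agent.Results.MP_a6ca0f_co.OppositeFace

/-- Euclidean three-space. -/
abbrev E3 : Type := EuclideanSpace ℝ (Fin 3)

/-- The small radius `r = √2 - 1`. -/
noncomputable def smallRadius : ℝ := Real.sqrt 2 - 1

/-- A packing: a set of balls, each given by its centre and its radius, all radii being `1` or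
`√2 - 1`, such that distinct balls have disjoint interiors. -/
def IsPacking (P : Set (E3 × ℝ)) : Prop :=
  (∀ b ∈ P, b.2 = 1 ∨ b.2 = smallRadius) ∧
    ∀ b ∈ P, ∀ b' ∈ P, b ≠ b' → Disjoint (Metric.ball b.1 b.2) (Metric.ball b'.1 b'.2)

/-- A packing is saturated if no further ball of radius `√2 - 1` can be added: the interior of
every ball of that radius meets the interior of some ball of the packing. -/
def IsSaturated (P : Set (E3 × ℝ)) : Prop :=
  ∀ x : E3, ∃ b ∈ P, ¬ Disjoint (Metric.ball x smallRadius) (Metric.ball b.1 b.2)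

/-- The additively weighted Voronoi cell of the ball `b`: the points `x` for which
`|x - c| - ρ` (`c` the centre and `ρ` the radius of `b`) is at most the corresponding quantity of
every ball of the packing. -/
def cell (P : Set (E3 × ℝ)) (b : E3 × ℝ) : Set E3 :=
  {x | ∀ b' ∈ P, dist x b.1 - b.2 ≤ dist x b'.1 - b'.2}

/-- Four balls `T 0, T 1, T 2, T 3` of the packing span an FM-tetrahedron: their centres are
affinely independent and their four cells have a common point.  (The polyhedra of the
FM-decomposition are dual to the vertices of the cell complex: the vertices of a polyhedron are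
centres of balls whose cells all contain one common vertex of the cell complex.  Cutting a
polyhedron into tetrahedra keeps this property.) -/
def IsFMTetrahedron (P : Set (E3 × ℝ)) (T : Fin 4 → E3 × ℝ) : Prop :=
  (∀ i, T i ∈ P) ∧ AffineIndependent ℝ (fun i => (T i).1) ∧ ∃ c : E3, ∀ i, c ∈ cell P (T i)

lemma smallRadius_pos : 0 < smallRadius := by
  unfold smallRadius
  have : (1 : ℝ) < Real.sqrt 2 := by
    rw [Real.lt_sqrt (by norm_num)]
    norm_num
  linarith

lemma smallRadius_le_one : smallRadius ≤ 1 := by
  unfold smallRadius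
  have : Real.sqrt 2 ≤ 2 := by
    rw [Real.sqrt_le_left (by norm_num)]
    norm_num
  linarith

/-- Open balls with disjoint interiors have far centres. -/
lemma add_le_dist {x y : E3} {s t : ℝ} (hs : 0 < s) (ht : 0 < t)
    (h : Disjoint (Metric.ball x s) (Metric.ball y t)) : s + t ≤ dist x y := by
  by_contra hlt
  push Not at hlt
  rw [Set.disjoint_left] at h
  -- the point dividing the segment in the ratio `s : t`
  set z : E3 := AffineMap.lineMap x y (s / (s + t)) with hz
  have hst : 0 < s + t := by linarith
  have h1 : dist z x = s / (s + t) * dist x y := by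
    rw [hz, dist_lineMap_left, Real.norm_of_nonneg (by positivity)]
  have h2 : dist z y = t / (s + t) * dist x y := by
    rw [hz, dist_lineMap_right]
    have : (1 : ℝ) - s / (s + t) = t / (s + t) := by field_simp; ring
    rw [this, Real.norm_of_nonneg (by positivity)]
  apply h (a := z)
  · rw [Metric.mem_ball, h1, div_mul_eq_mul_div, div_lt_iff₀ hst]
    exact mul_lt_mul_of_pos_left hlt hs
  · rw [Metric.mem_ball, h2, div_mul_eq_mul_div, div_lt_iff₀ hst]
    exact mul_lt_mul_of_pos_left hlt ht

lemma dist_lt_of_not_disjoint {x y : E3} {s t : ℝ}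
    (h : ¬ Disjoint (Metric.ball x s) (Metric.ball y t)) : dist x y < s + t := by
  rw [Set.not_disjoint_iff] at h
  obtain ⟨z, hz1, hz2⟩ := h
  rw [Metric.mem_ball] at hz1 hz2
  calc dist x y ≤ dist x z + dist z y := dist_triangle _ _ _
    _ < s + t := by rw [dist_comm x z]; linarith

/-- **Main theorem.**  In every saturated packing by balls of radii `1` and `√2 - 1`, for every
FM-tetrahedron and each of its vertices, the ball centred at this vertex (its interior) contains
no point of the opposite face. -/
theorem result (P : Set (E3 × ℝ)) (hP : IsPacking P) (hsat : IsSaturated P)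
    (T : Fin 4 → E3 × ℝ) (hT : IsFMTetrahedron P T) (i : Fin 4) :
    Disjoint (Metric.ball (T i).1 (T i).2) (convexHull ℝ ((fun j => (T j).1) '' {j | j ≠ i})) := by
  obtain ⟨hmem, haff, c, hc⟩ := hT
  have hinj : Function.Injective (fun i => (T i).1) := haff.injective
  have hrpos := smallRadius_pos
  have hrad : ∀ b ∈ P, smallRadius ≤ b.2 := by
    intro b hb
    rcases hP.1 b hb with h | h
    · rw [h]; exact smallRadius_le_one
    · rw [h]
  have hradpos : ∀ b ∈ P, 0 < b.2 := fun b hb => lt_of_lt_of_le hrpos (hrad b hb)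
  -- the common value
  set ρ : ℝ := dist c (T i).1 - (T i).2 with hρ
  have hval : ∀ j, dist c (T j).1 - (T j).2 = ρ := by
    intro j
    exact le_antisymm (hc j (T i) (hmem i)) (hc i (T j) (hmem j))
  have hρlt : ρ < smallRadius := by
    obtain ⟨b, hb, hnd⟩ := hsat c
    have h1 := dist_lt_of_not_disjoint hnd
    have h2 := hc i b hb
    linarith
  have hρ0 : 0 ≤ ρ := by
    by_contra hneg
    push Not at hneg
    obtain ⟨j, hj⟩ : ∃ j : Fin 4, j ≠ i := exists_ne i
    have hne : T j ≠ T i := by
      intro h
      exact hj (hinj (by simp [h]))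
    have hd := hP.2 (T j) (hmem j) (T i) (hmem i) hne
    have h1 := hval j
    rw [Set.disjoint_left] at hd
    apply hd (a := c)
    · rw [Metric.mem_ball]; linarith
    · rw [Metric.mem_ball]; linarith
  rw [Set.disjoint_left]
  intro x hx hx'
  rw [Metric.mem_ball] at hx
  have hrA := hrad (T i) (hmem i)
  -- the convex half space
  set S : Set E3 := {y | (T i).2 ^ 2 - ρ ^ 2 ≤ ‖(T i).1‖ ^ 2 - ‖c‖ ^ 2
    - 2 * inner ℝ ((T i).1 - c) y} with hS
  have hg : ∀ y : E3, dist (T i).1 y ^ 2 - dist c y ^ 2 = ‖(T i).1‖ ^ 2 - ‖c‖ ^ 2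
      - 2 * inner ℝ ((T i).1 - c) y := by
    intro y
    rw [dist_eq_norm, dist_eq_norm, @norm_sub_sq_real, @norm_sub_sq_real, inner_sub_left]
    ring
  have hSconv : Convex ℝ S := by
    intro y hy z hz a b ha hb hab
    simp only [hS, Set.mem_setOf_eq, inner_add_right, real_inner_smul_right] at hy hz ⊢
    have hb' : b = 1 - a := by linarith
    subst hb'
    nlinarith
  have hsub : ((fun j => (T j).1) '' {j | j ≠ i}) ⊆ S := by
    rintro _ ⟨j, hj, rfl⟩
    simp only [hS, Set.mem_setOf_eq]
    rw [← hg]
    have hne : T i ≠ T j := by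
      intro h
      exact hj (hinj (by simp [h]))
    have h1 : (T i).2 + (T j).2 ≤ dist (T i).1 (T j).1 :=
      add_le_dist (hradpos _ (hmem i)) (hradpos _ (hmem j)) (hP.2 _ (hmem i) _ (hmem j) hne)
    have h2 : dist c (T j).1 = ρ + (T j).2 := by linarith [hval j]
    rw [h2]
    have h3 := hradpos _ (hmem i)
    have h4 := hradpos _ (hmem j)
    have h5 : ((T i).2 + (T j).2) ^ 2 ≤ dist (T i).1 (T j).1 ^ 2 :=
      pow_le_pow_left₀ (by linarith) h1 2
    have h6 : 0 ≤ ((T i).2 - ρ) * (T j).2 := mul_nonneg (by linarith) h4.le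
    nlinarith
  have hxS : x ∈ S := convexHull_min hsub hSconv hx'
  simp only [hS, Set.mem_setOf_eq] at hxS
  rw [← hg] at hxS
  have h1 : (T i).2 + ρ - dist x (T i).1 ≤ dist c x := by
    have := dist_triangle c x (T i).1
    linarith [hval i]
  have h2 : 0 ≤ (T i).2 + ρ - dist x (T i).1 := by linarith
  have h3 : ((T i).2 + ρ - dist x (T i).1) ^ 2 ≤ dist c x ^ 2 := pow_le_pow_left₀ h2 h1 2
  rw [dist_comm (T i).1 x] at hxS
  have h4 : 0 < (T i).2 + ρ := by linarith
  have h5 : ((T i).2 + ρ) * dist x (T i).1 < ((T i).2 + ρ) * (T i).2 :=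
    mul_lt_mul_of_pos_left hx h4
  nlinarith

end Pool.Agent.Results.MP_a6ca0f_co.OppositeFace
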